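import Pool.Agent.H242R3.ES.StmtsG

set_option autoImplicit false

open Finset
open scoped Classical

namespace Pool.Agent.H146R3.ES.P1G

open Pool.Agent.H242R3.ES

theorem B_add_left {D : ℕ} (x y z : LV D) : B (x + y) z = B x z + B y z := by
  unfold B
  simp only [Pi.add_apply, add_mul, Finset.sum_add_distrib]
  ring

theorem B_comm {D : ℕ} (x y : LV D) : B x y = B y x := by
  unfold B
  congr 1
  · exact Finset.sum_congr rfl fun i _ => mul_comm _ _
  · exact mul_comm _ _

theorem B_add_right {D : ℕ} (x y z : LV D) : B x (y + z) = B x y + B x z := by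
  rw [B_comm, B_add_left, B_comm y, B_comm z]

theorem B_smul_left {D : ℕ} (c : ℝ) (x z : LV D) : B (c • x) z = c * B x z := by
  unfold B
  simp only [Pi.smul_apply, smul_eq_mul, mul_sub, Finset.mul_sum, mul_assoc]

theorem B_smul_right {D : ℕ} (c : ℝ) (x z : LV D) : B x (c • z) = c * B x z := by
  rw [B_comm, B_smul_left, B_comm]

theorem zero_of_orth {D : ℕ} (w Z : LV D) (hw : B w w < 0) (hZw : B Z w = 0) (hZ : B Z Z ≤ 0) :
    Z = 0 := by
  unfold B at hw hZw hZ
  have hcs := Finset.sum_mul_sq_le_sq_mul_sq (Finset.univ : Finset (Fin D))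
    (fun i => Z (some i)) (fun i => w (some i))
  have e1 : ∑ i : Fin D, Z (some i) * Z (some i) = ∑ i : Fin D, Z (some i) ^ 2 :=
    Finset.sum_congr rfl fun i _ => (sq _).symm
  have e2 : ∑ i : Fin D, w (some i) * w (some i) = ∑ i : Fin D, w (some i) ^ 2 :=
    Finset.sum_congr rfl fun i _ => (sq _).symm
  rw [e1] at hZ
  rw [e2] at hw
  have n1 : 0 ≤ ∑ i : Fin D, Z (some i) ^ 2 := Finset.sum_nonneg fun i _ => sq_nonneg _
  have n2 : 0 ≤ ∑ i : Fin D, w (some i) ^ 2 := Finset.sum_nonneg fun i _ => sq_nonneg _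
  set a : ℝ := ∑ i : Fin D, Z (some i) ^ 2 with ha
  set b : ℝ := ∑ i : Fin D, w (some i) ^ 2 with hb
  set s : ℝ := ∑ i : Fin D, Z (some i) * w (some i) with hs
  have hs' : s = Z none * w none := by linarith
  have hZ0 : Z none = 0 := by
    by_contra h0
    have hp : 0 < Z none * Z none := mul_self_pos.2 h0
    rw [hs'] at hcs
    have h1 : a * b ≤ Z none * Z none * b := mul_le_mul_of_nonneg_right (by linarith) n2
    have h2 : Z none * Z none * b < Z none * Z none * (w none * w none) :=
      mul_lt_mul_of_pos_left (by linarith) hp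
    have h3 : (Z none * w none) ^ 2 = Z none * Z none * (w none * w none) := by ring
    linarith
  have ha0 : a = 0 := by
    apply le_antisymm _ n1
    rw [hZ0] at hZ
    linarith
  have h3 := (Finset.sum_eq_zero_iff_of_nonneg (fun i _ => sq_nonneg _)).1 (ha.symm.trans ha0)
  funext i
  cases i with
  | none => exact hZ0
  | some i =>
    have h4 := h3 i (Finset.mem_univ i)
    exact (pow_eq_zero_iff (two_ne_zero)).1 h4

theorem t : P1G := by
  intro D ι _ V hV v k l hkv hlv hkl hkf hlf
  have e1 : B (V v) (V k) = -1 := hV.edge v k (Ne.symm hkv) hkf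
  have e2 : B (V v) (V l) = -1 := hV.edge v l (Ne.symm hlv) hlf
  by_contra hcon
  rw [not_lt] at hcon
  obtain ⟨w, hw, hVw⟩ := hV.tw
  set X : LV D := V v + V k with hXd
  set Y : LV D := V v + V l with hYd
  have hX : B X X = 0 := by
    rw [hXd, B_add_left, B_add_right, B_add_right, B_comm (V k) (V v), e1, hV.norm, hV.norm]
    norm_num
  have hY : B Y Y = 0 := by
    rw [hYd, B_add_left, B_add_right, B_add_right, B_comm (V l) (V v), e2, hV.norm, hV.norm]
    norm_num
  have hXY : B X Y = B (V k) (V l) - 1 := by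
    rw [hXd, hYd, B_add_left, B_add_right, B_add_right, B_comm (V k) (V v), e1, e2, hV.norm]
    ring
  have hX0 : B X w < 0 := by
    rw [hXd, B_add_left]
    exact add_neg (hVw v) (hVw k)
  have hY0 : B Y w < 0 := by
    rw [hYd, B_add_left]
    exact add_neg (hVw v) (hVw l)
  set c : ℝ := B X w / B Y w with hc
  have hc0 : 0 < c := div_pos_of_neg_of_neg hX0 hY0
  have hZ : X + (-c) • Y = 0 := by
    apply zero_of_orth w _ hw
    · rw [B_add_left X, B_smul_left]
      have : c * B Y w = B X w := by rw [hc]; exact div_mul_cancel₀ _ hY0.ne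
      linarith
    · rw [B_add_left X, B_add_right X, B_smul_left, B_add_right Y, B_smul_right,
        B_smul_right, hX, hY, B_comm Y X, hXY]
      have : 0 ≤ c * (B (V k) (V l) - 1) := mul_nonneg hc0.le (by linarith)
      linarith
  have hprop : X = c • Y := by
    have := eq_neg_of_add_eq_zero_left hZ
    rw [this, neg_smul, neg_neg]
  -- the linear relation
  have hlin : ∀ f : LV D →ₗ[ℝ] ℝ, f (V v) + f (V k) = c * (f (V v) + f (V l)) := by
    intro f
    have := congrArg f hprop
    rw [map_smul, hXd, hYd, map_add, map_add, smul_eq_mul] at this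
    exact this
  rcases le_or_gt 1 c with h1 | h1
  · obtain ⟨f, hf0, hf⟩ := hV.vert k
    have hfk : f (V k) = 0 := (hf k).1 (by simp)
    have hfl : 0 < f (V l) := by
      refine lt_of_le_of_ne (hf0 l) (fun h => ?_)
      have := (hf l).2 h.symm
      exact hkl (by simpa using this.symm)
    have h2 := hlin f
    rw [hfk] at h2
    have h3 : 0 ≤ f (V v) := hf0 v
    nlinarith
  · obtain ⟨f, hf0, hf⟩ := hV.vert l
    have hfl : f (V l) = 0 := (hf l).1 (by simp)
    have hfk : 0 < f (V k) := by
      refine lt_of_le_of_ne (hf0 k) (fun h => ?_)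
      have := (hf k).2 h.symm
      exact hkl (by simpa using this)
    have h2 := hlin f
    rw [hfl] at h2
    have h3 : 0 ≤ f (V v) := hf0 v
    nlinarith

end Pool.Agent.H146R3.ES.P1G
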